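import Pool.Agent.Lib.SmNH.Link.Cnt

/-!
# SMITH, heights: the link, final count

`link_card_abs`: if `q_s` does not vanish on the rigid Selmer elements of level `s` with top not in
`kappa`, and `#SelZ_N ≤ C (2 #V1)^N`, then the number of the Selmer cocycles of level `N` of the module
`V ⊗ Z[T]/T^2` is at most `C' (2 #V1 ^ 2)^N`.
-/

set_option autoImplicit false

namespace Pool.Agent.SmNH

open Pool.Agent.SmN Pool.Agent.SmH

variable {G V V1 Pl M : Type*} [Group G] [AddCommGroup V] [DistribMulAction G V]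
  [AddCommGroup V1] [Module (ZMod 2) V1] [AddCommGroup M] [DistribMulAction G M]
variable {S : Sys G V V1 Pl} {H : HData V M Pl} {dg : ℕ → G → ℕ} {chi : G → ZMod 2}

/-! ### growth of the Selmer groups -/

/-- The top of the Selmer cocycle `x` of level `i` is in the image of `V1`. -/
def TopK (chi : G → ZMod 2) (i : ℕ) (x : G → V) : Prop :=
  ∃ z : V, (2 : ℕ) ^ 2 • z = 0 ∧ ∀ g, (2 : ℕ) ^ (i - 1) • x g = dl chi z g

theorem topK_up {i : ℕ} (hi : 1 ≤ i) (hP : ∀ x, S.IsSel chi i x → TopK chi i x) {x : G → V}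
    (hx : S.IsSel chi (i + 1) x) : TopK chi (i + 1) x := by
  obtain ⟨z, hz, h1⟩ := hP _ hx.two
  refine ⟨z, hz, fun g => ?_⟩
  rw [← h1 g, Pi.smul_apply, ← mul_smul, ← pow_succ, Nat.add_sub_cancel, Nat.sub_add_cancel hi]

/-- The points `z` of order 4 with `2 z` invariant. -/
def KK (chi : G → ZMod 2) : AddSubgroup V where
  carrier := {z | (2 : ℕ) ^ 2 • z = 0 ∧ ∀ s, dl chi ((2 : ℕ) • z) s = 0}
  zero_mem' := ⟨smul_zero _, fun s => by rw [smul_zero, dl_zero]⟩
  add_mem' := fun {a b} ha hb => ⟨by rw [smul_add, ha.1, hb.1, add_zero], fun s => by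
    rw [smul_add, dl_add, ha.2, hb.2, add_zero]⟩
  neg_mem' := fun {a} ha => ⟨by rw [smul_neg, ha.1, neg_zero], fun s => by
    rw [smul_neg, dl_neg, ha.2, neg_zero]⟩

/-- `z ↦ dl z`. -/
def dK (chi : G → ZMod 2) : (KK chi : AddSubgroup V) →+ (G → V) :=
  AddMonoidHom.mk' (fun z s => dl chi (z : V) s) fun a b => funext fun s =>
    dl_add chi (a : V) (b : V) s

/-- `z ↦ 2 z`. -/
def tK (chi : G → ZMod 2) : (KK chi : AddSubgroup V) →+ V :=
  AddMonoidHom.mk' (fun z => (2 : ℕ) • (z : V)) fun a b => smul_add 2 (a : V) (b : V)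

/-- There are at most `#V1` coboundaries `dl z` of level 1 with `4 z = 0`. -/
theorem card_dK (h : S.Ok) (chi : G → ZMod 2) :
    Finite (dK chi : (KK chi : AddSubgroup V) →+ (G → V)).range ∧
    Nat.card (dK chi : (KK chi : AddSubgroup V) →+ (G → V)).range ≤ Nat.card V1 := by
  have := h.fin1
  -- the kernel of `tK`
  have f1 : Function.Surjective (fun w : V1 => (⟨⟨S.iota w, by
      constructor
      · rw [pow_two, mul_smul, Sys.two_iota, smul_zero]
      · intro s
        rw [Sys.two_iota, dl_zero]⟩, by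
      change (2 : ℕ) • S.iota w = 0
      exact Sys.two_iota S w⟩ : (tK chi : (KK chi : AddSubgroup V) →+ V).ker)) := by
    rintro ⟨⟨z, hz⟩, hz2⟩
    obtain ⟨w, hw⟩ := h.iota_range z hz2
    exact ⟨w, Subtype.ext (Subtype.ext hw)⟩
  have hk1 : Finite (tK chi : (KK chi : AddSubgroup V) →+ V).ker := Finite.of_surjective _ f1
  have hk2 : Nat.card (tK chi : (KK chi : AddSubgroup V) →+ V).ker ≤ Nat.card V1 :=
    Nat.card_le_card_of_surjective _ f1
  -- the range of `tK` is in the kernel of `dK`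
  have hI : ∀ u ∈ (tK chi : (KK chi : AddSubgroup V) →+ V).range,
      (2 : ℕ) • u = 0 ∧ ∀ s, dl chi u s = 0 := by
    rintro _ ⟨z, rfl⟩
    exact ⟨by
      change (2 : ℕ) • ((2 : ℕ) • (z : V)) = 0
      rw [← mul_smul]
      exact z.2.1, z.2.2⟩
  have hr1 : Finite (tK chi : (KK chi : AddSubgroup V) →+ V).range := by
    refine Finite.of_injective (fun u => S.un u.1) fun u u' huu => Subtype.ext ?_
    rw [← Sys.iota_un h (hI _ u.2).1, ← Sys.iota_un h (hI _ u'.2).1]
    exact congrArg S.iota huu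
  have hfK : Finite (KK chi : AddSubgroup V) := by
    have h0 : Finite ((KK chi : AddSubgroup V) ⧸ (tK chi : (KK chi : AddSubgroup V) →+ V).ker) :=
      Finite.of_equiv _ (QuotientAddGroup.quotientKerEquivRange (tK chi)).symm.toEquiv
    exact Finite.of_equiv _ (AddSubgroup.addGroupEquivQuotientProdAddSubgroup
      (s := (tK chi : (KK chi : AddSubgroup V) →+ V).ker)).symm
  have hfr : Finite (dK chi : (KK chi : AddSubgroup V) →+ (G → V)).range :=
    Finite.of_surjective _ (dK chi : (KK chi : AddSubgroup V) →+ (G → V)).rangeRestrict_surjective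
  refine ⟨hfr, ?_⟩
  have h3 : Nat.card (tK chi : (KK chi : AddSubgroup V) →+ V).range ≤
      Nat.card (dK chi : (KK chi : AddSubgroup V) →+ (G → V)).ker := by
    refine Nat.card_le_card_of_injective (fun u => ⟨⟨u.1, by
      constructor
      · rw [pow_two, mul_smul, (hI _ u.2).1, smul_zero]
      · intro s
        rw [(hI _ u.2).1, dl_zero]⟩, funext fun s => (hI _ u.2).2 s⟩) fun u u' huu =>
        Subtype.ext ?_
    exact congrArg (fun z : (dK chi : (KK chi : AddSubgroup V) →+ (G → V)).ker => (z.1.1 : V)) huu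
  have h4 := Sys.card_hom (tK chi : (KK chi : AddSubgroup V) →+ V)
  have h5 := Sys.card_hom (dK chi : (KK chi : AddSubgroup V) →+ (G → V))
  have hpos : 0 < Nat.card (tK chi : (KK chi : AddSubgroup V) →+ V).range := Nat.card_pos
  refine Nat.le_of_mul_le_mul_right ?_ hpos
  calc Nat.card (dK chi : (KK chi : AddSubgroup V) →+ (G → V)).range *
        Nat.card (tK chi : (KK chi : AddSubgroup V) →+ V).range
      ≤ Nat.card (dK chi : (KK chi : AddSubgroup V) →+ (G → V)).range *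
        Nat.card (dK chi : (KK chi : AddSubgroup V) →+ (G → V)).ker := Nat.mul_le_mul_left _ h3
    _ = Nat.card (tK chi : (KK chi : AddSubgroup V) →+ V).ker *
        Nat.card (tK chi : (KK chi : AddSubgroup V) →+ V).range := by
      rw [mul_comm, h5, ← h4]
    _ ≤ _ := Nat.mul_le_mul_right _ hk2

theorem selz_step (h : S.Ok) {N : ℕ} (hfin : Finite {x // S.IsSel chi N x})
    (hP : ∀ x, S.IsSel chi (N + 1) x → TopK chi (N + 1) x) :
    Nat.card {x // S.IsSel chi (N + 1) x} ≤ Nat.card V1 * Nat.card {x // S.IsSel chi N x} := by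
  classical
  obtain ⟨hf1, hc1⟩ := card_dK h chi
  have hmem : ∀ x, S.IsSel chi (N + 1) x → (fun s => (2 : ℕ) ^ N • x s) ∈
      (dK chi : (KK chi : AddSubgroup V) →+ (G → V)).range := fun x hx => by
    obtain ⟨z, hz, h1⟩ := hP x hx
    refine ⟨⟨z, hz, fun s => ?_⟩, funext fun s => ?_⟩
    · rw [dl_nsmul, ← h1, ← mul_smul, Nat.add_sub_cancel, mul_comm, ← pow_succ, hx.lev]
    · change dl chi z s = _
      rw [← h1 s, Nat.add_sub_cancel]
  let f : (G → V) → (dK chi : (KK chi : AddSubgroup V) →+ (G → V)).range := fun x =>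
    if hx : S.IsSel chi (N + 1) x then ⟨fun s => (2 : ℕ) ^ N • x s, hmem x hx⟩ else 0
  have : Finite {x | S.IsSel chi N x} := hfin
  refine (card_le_fib {x | S.IsSel chi (N + 1) x} {x | S.IsSel chi N x} f
    (fun a ha a' ha' haa => ?_)).2.trans (Nat.mul_le_mul_right _ hc1)
  have e1 : f a = ⟨fun s => (2 : ℕ) ^ N • a s, hmem a ha⟩ := dif_pos ha
  have e2 : f a' = ⟨fun s => (2 : ℕ) ^ N • a' s, hmem a' ha'⟩ := dif_pos ha'
  rw [e1, e2] at haa
  have e3 := Subtype.mk.inj haa
  have hsel : S.IsSel chi (N + 1) (a - a') := by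
    rw [sub_eq_add_neg]
    exact Sys.IsSel.add h ha (Sys.IsSel.neg ha')
  refine hsel.of_lev fun s => ?_
  have e4 : (2 : ℕ) ^ N • a s = (2 : ℕ) ^ N • a' s := congrFun e3 s
  rw [Pi.sub_apply, smul_sub, e4, sub_self]

/-- Corank zero. -/
theorem selz_grow (h : S.Ok) (hfin : ∀ i, Finite {x // S.IsSel chi i x}) {N0 : ℕ} (h0 : 1 ≤ N0)
    (hP : ∀ x, S.IsSel chi N0 x → TopK chi N0 x) :
    ∃ C, ∀ N, Nat.card {x // S.IsSel chi N x} ≤ C * Nat.card V1 ^ N := by
  have := h.fin1
  have hV1 : 0 < Nat.card V1 := Nat.card_pos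
  have hPk : ∀ k, ∀ x, S.IsSel chi (N0 + k) x → TopK chi (N0 + k) x := by
    intro k
    induction k with
    | zero => exact hP
    | succ k ih => exact fun x hx => topK_up (by omega) ih hx
  have hk : ∀ k, Nat.card {x // S.IsSel chi (N0 - 1 + k) x} ≤
      Nat.card {x // S.IsSel chi (N0 - 1) x} * Nat.card V1 ^ k := by
    intro k
    induction k with
    | zero => simp
    | succ k ih =>
      have h1 := selz_step h (hfin (N0 - 1 + k)) (by
        have e : N0 - 1 + k + 1 = N0 + k := by omega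
        rw [e]
        exact hPk k)
      calc _ ≤ _ := h1
        _ ≤ Nat.card V1 * (Nat.card {x // S.IsSel chi (N0 - 1) x} * Nat.card V1 ^ k) :=
          Nat.mul_le_mul_left _ ih
        _ = _ := by ring
  refine ⟨Nat.card {x // S.IsSel chi (N0 - 1) x}, fun N => ?_⟩
  rcases le_total N (N0 - 1) with hN | hN
  · have := hfin (N0 - 1)
    calc Nat.card {x // S.IsSel chi N x} ≤ Nat.card {x // S.IsSel chi (N0 - 1) x} :=
          Nat.card_le_card_of_injective (fun x => ⟨x.1, x.2.mono hN⟩) fun x x' hx =>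
            Subtype.ext (Subtype.mk.inj hx)
      _ = Nat.card {x // S.IsSel chi (N0 - 1) x} * 1 := (mul_one _).symm
      _ ≤ _ := Nat.mul_le_mul_left _ (Nat.one_le_pow _ _ hV1)
  · obtain ⟨k, rfl⟩ := Nat.exists_eq_add_of_le hN
    exact (hk k).trans (Nat.mul_le_mul_left _ (Nat.pow_le_pow_right hV1 (by omega)))

/-! ### rigid elements as a group -/

theorem pr_add (h : S.Ok) {i : ℕ} {y y' : (G → V) × (Pl → V)} (hy : IsPr S chi i y)
    (hy' : IsPr S chi i y') : IsPr S chi i (y + y') where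
  sel := Sys.IsSel.add h hy.sel hy'.sel
  loc v hv s hs := by
    rw [Prod.fst_add, Prod.snd_add, Pi.add_apply, Pi.add_apply, dl_add, hy.loc v hv s hs,
      hy'.loc v hv s hs]
  off v hv := by rw [Prod.snd_add, Pi.add_apply, hy.off v hv, hy'.off v hv, add_zero]

theorem pr_neg {i : ℕ} {y : (G → V) × (Pl → V)} (hy : IsPr S chi i y) : IsPr S chi i (-y) where
  sel := Sys.IsSel.neg hy.sel
  loc v hv s hs := by
    rw [Prod.fst_neg, Prod.snd_neg, Pi.neg_apply, Pi.neg_apply, dl_neg, hy.loc v hv s hs]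
  off v hv := by rw [Prod.snd_neg, Pi.neg_apply, hy.off v hv, neg_zero]

theorem pr_zero (h : S.Ok) (i : ℕ) : IsPr S chi i (0 : (G → V) × (Pl → V)) where
  sel := Sys.IsSel.zero h chi i
  loc v hv s hs := by
    change (0 : V) = dl chi (0 : V) s
    rw [dl_zero]
  off v hv := rfl

theorem pr_two {i : ℕ} {y : (G → V) × (Pl → V)} (hy : IsPr S chi (i + 1) y) :
    IsPr S chi i ((2 : ℕ) • y) where
  sel := hy.sel.two
  loc v hv s hs := by
    rw [Prod.smul_fst, Prod.smul_snd, Pi.smul_apply, Pi.smul_apply, dl_nsmul, hy.loc v hv s hs]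
  off v hv := by rw [Prod.smul_snd, Pi.smul_apply, hy.off v hv, smul_zero]

theorem pr_pow {i : ℕ} : ∀ (k : ℕ) {y : (G → V) × (Pl → V)}, IsPr S chi (i + k) y →
    IsPr S chi i ((2 : ℕ) ^ k • y)
  | 0, y, hy => by rw [pow_zero, one_smul]; exact hy
  | k + 1, y, hy => by
    rw [pow_succ, mul_smul]
    exact pr_pow k (pr_two (by rw [add_assoc]; exact hy))

/-- The rigid Selmer elements as a group. -/
def rsG (S : Sys G V V1 Pl) (h : S.Ok) (chi : G → ZMod 2) (i : ℕ) :
    AddSubgroup ((G → V) × (Pl → V)) where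
  carrier := {y | IsPr S chi i y}
  zero_mem' := pr_zero h i
  add_mem' := fun hy hy' => pr_add h hy hy'
  neg_mem' := fun hy => pr_neg hy

/-- The kernel of a homomorphism with a value of large order. -/
theorem card_ker_le {A B : Type*} [AddCommGroup A] [Finite A] [AddCommGroup B] (θ : A →+ B) (a : A)
    (n : ℕ) (hn : (2 : ℕ) ^ n • θ a ≠ 0) (ht : ∃ r : ℕ, (2 : ℕ) ^ r • θ a = 0) (X : Set A)
    (hX : ∀ x ∈ X, θ x = 0) : Nat.card X * 2 ^ (n + 1) ≤ Nat.card A := by
  have h1 : Nat.card A = Nat.card θ.range * Nat.card θ.ker := by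
    rw [AddSubgroup.card_eq_card_quotient_mul_card_addSubgroup θ.ker]
    congr 1
    exact Nat.card_congr (QuotientAddGroup.quotientKerEquivRange θ).toEquiv
  have h2 : Nat.card X ≤ Nat.card θ.ker :=
    Nat.card_le_card_of_injective (fun x : X => (⟨x.1, hX x x.2⟩ : θ.ker)) fun x x' hx =>
      Subtype.ext (Subtype.mk.inj hx)
  have h3 : 2 ^ (n + 1) ≤ Nat.card θ.range := by
    obtain ⟨r, hr⟩ := ht
    have h4 : addOrderOf (θ a) ∣ 2 ^ r := addOrderOf_dvd_of_nsmul_eq_zero hr
    obtain ⟨k, _, hk⟩ := (Nat.dvd_prime_pow Nat.prime_two).1 h4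
    have h5 : n < k := by
      by_contra hcon
      apply hn
      apply addOrderOf_dvd_iff_nsmul_eq_zero.1
      rw [hk]
      exact pow_dvd_pow 2 (by omega)
    have : Finite θ.range := Set.finite_range θ
    have h6 : addOrderOf (⟨θ a, a, rfl⟩ : θ.range) ∣ Nat.card θ.range := addOrderOf_dvd_natCard _
    have h7 : addOrderOf (⟨θ a, a, rfl⟩ : θ.range) = addOrderOf (θ a) :=
      (addOrderOf_injective θ.range.subtype Subtype.val_injective _).symm
    rw [h7, hk] at h6
    exact (Nat.pow_le_pow_right (by norm_num) h5).trans (Nat.le_of_dvd Nat.card_pos h6)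
  calc Nat.card X * 2 ^ (n + 1) ≤ Nat.card θ.ker * Nat.card θ.range := Nat.mul_le_mul h2 h3
    _ = Nat.card A := by rw [h1, mul_comm]

/-- The facts on the height form used by the link. -/
structure QF (S : Sys G V V1 Pl) (H : HData V M Pl) (chi : G → ZMod 2) : Prop where
  add : ∀ i y y' z, IsPr S chi i y → IsPr S chi i y' → IsPr S chi i z →
    bb S H chi i (y + y') z = bb S H chi i y z + bb S H chi i y' z
  self : ∀ i y, IsPr S chi i y → bb S H chi i y y = (2 : ℕ) • q S H chi i y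
  two : ∀ i y, IsPr S chi (i + 1) y → q S H chi i ((2 : ℕ) • y) = (2 : ℕ) • q S H chi (i + 1) y

theorem QF.pow (hQ : QF S H chi) (i : ℕ) : ∀ (k : ℕ) (y : (G → V) × (Pl → V)),
    IsPr S chi (i + k) y → q S H chi i ((2 : ℕ) ^ k • y) = (2 : ℕ) ^ k • q S H chi (i + k) y
  | 0, y, _ => by rw [pow_zero, one_smul, one_smul, add_zero]
  | k + 1, y, hy => by
    have e : i + (k + 1) = i + k + 1 := by ring
    rw [e] at hy ⊢
    rw [pow_succ, mul_smul, hQ.pow i k _ (pr_two hy), hQ.two _ y hy, ← mul_smul]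

/-- The rigid element of a W-cocycle. -/
noncomputable def wPr (S : Sys G V V1 Pl) (x : G → V) (Q : Pl → V) : (G → V) × (Pl → V) :=
  open Classical in (x, fun v => if v ∈ S.good then 0 else Q v)

theorem isPr_wPr {i : ℕ} {x : G → V} {Q : Pl → V} (hx : S.IsSel chi i x)
    (hQ : ∀ v, ∀ s ∈ S.D v, x s = dl chi (Q v) s) : IsPr S chi i (wPr S x Q) where
  sel := hx
  loc v hv s hs := by
    have e : (wPr S x Q).2 v = Q v := if_neg hv
    rw [e]
    exact hQ v s hs
  off v hv := if_pos hv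

/-- `bb` vanishes on W-cocycles. -/
def BW (S : Sys G V V1 Pl) (H : HData V M Pl) (dg : ℕ → G → ℕ) (chi : G → ZMod 2) : Prop :=
  ∀ (i : ℕ) (x y : G → V) (Q R : Pl → V) (z : (G → V) × (Pl → V)), IsWSel S dg chi i x y →
    (∀ v, ∀ s ∈ S.D v, x s = dl chi (Q v) s ∧ y s = dl chi (R v) s + ds dg s (tw chi s (Q v))) →
    IsPr S chi i z → bb S H chi i (wPr S x Q) z = 0

theorem card_X_le (hfin : ∀ i, Finite {x // S.IsSel chi i x}) (N : ℕ) :
    Nat.card {x : G → V // ∃ y, IsWSel S dg chi N x y} ≤ Nat.card {x // S.IsSel chi N x} := by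
  have := hfin N
  refine Nat.card_le_card_of_injective (fun x => ⟨x.1, x.2.choose_spec.sel⟩) fun x x' hx => ?_
  exact Subtype.ext (Subtype.mk.inj hx)

/-- Corank zero: the bound for the W-cocycles. -/
theorem link_card0 (h : S.Ok) (hd : IsDeg dg) (hU : DegU S dg) (hchi : S.HomG chi)
    (hfin : ∀ i, Finite {x // S.IsSel chi i x})
    (hC : ∃ C, ∀ N, Nat.card {x // S.IsSel chi N x} ≤ C * Nat.card V1 ^ N) :
    ∃ C, ∀ N, Finite {p : (G → V) × (G → V) // IsWSel S dg chi N p.1 p.2} ∧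
      Nat.card {p : (G → V) × (G → V) // IsWSel S dg chi N p.1 p.2} ≤
        C * (Nat.card V1 ^ 2) ^ N := by
  obtain ⟨C, hC⟩ := hC
  refine ⟨KT S chi * C ^ 2, fun N => ?_⟩
  obtain ⟨h1, h2⟩ := card_W_le h hd hU hchi N (hfin N)
  refine ⟨h1, ?_⟩
  calc _ ≤ _ := h2
    _ ≤ Nat.card {x // S.IsSel chi N x} * KT S chi * Nat.card {x // S.IsSel chi N x} :=
      Nat.mul_le_mul_right _ (Nat.mul_le_mul_right _ (card_X_le hfin N))
    _ ≤ (C * Nat.card V1 ^ N) * KT S chi * (C * Nat.card V1 ^ N) :=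
      Nat.mul_le_mul (Nat.mul_le_mul_right _ (hC N)) (hC N)
    _ = KT S chi * C ^ 2 * (Nat.card V1 ^ 2) ^ N := by ring

theorem link_card_abs (h : S.Ok) (hd : IsDeg dg) (hU : DegU S dg) (hchi : S.HomG chi)
    (hfin : ∀ i, Finite {x // S.IsSel chi i x}) (ht : ∀ m : M, ∃ r : ℕ, (2 : ℕ) ^ r • m = 0)
    (hQ : QF S H chi) (hBW : BW S H dg chi)
    (s : ℕ) (hs : 1 ≤ s)
    (hq : ∀ y, IsPr S chi s y → ¬ TopK chi s y.1 → q S H chi s y ≠ 0)
    (hC : ∃ C, ∀ N, Nat.card {x // S.IsSel chi N x} ≤ C * (2 * Nat.card V1) ^ N) :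
    ∃ C, ∀ N, Finite {p : (G → V) × (G → V) // IsWSel S dg chi N p.1 p.2} ∧
      Nat.card {p : (G → V) × (G → V) // IsWSel S dg chi N p.1 p.2} ≤
        C * (2 * Nat.card V1 ^ 2) ^ N := by
  classical
  set a : ℕ → ℕ := fun N => Nat.card {x // S.IsSel chi N x} with ha
  set X : ℕ → ℕ := fun N => Nat.card {x : G → V // ∃ y, IsWSel S dg chi N x y} with hX
  have hXa : ∀ N, X N ≤ a N := fun N => card_X_le hfin N
  have hWf : ∀ N, Finite {p : (G → V) × (G → V) // IsWSel S dg chi N p.1 p.2} := fun N =>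
    (card_W_le h hd hU hchi N (hfin N)).1
  have hW : ∀ N, Nat.card {p : (G → V) × (G → V) // IsWSel S dg chi N p.1 p.2} ≤
      X N * KT S chi * a N := fun N => (card_W_le h hd hU hchi N (hfin N)).2
  have hKB : 1 ≤ KB S chi := by
    have := finB h
    have := fun v => finMv h hchi v
    have : Finite (∀ v : {v // v ∉ S.good}, S.Mv chi (v : Pl)) := inferInstance
    exact Nat.card_pos
  by_cases hcase : ∃ N0, 1 ≤ N0 ∧ ∀ x, S.IsSel chi N0 x → TopK chi N0 x
  · -- corank zero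
    obtain ⟨N0, h0, hP⟩ := hcase
    obtain ⟨C, hC⟩ := selz_grow h hfin h0 hP
    refine ⟨KT S chi * C ^ 2, fun N => ⟨hWf N, ?_⟩⟩
    calc _ ≤ X N * KT S chi * a N := hW N
      _ ≤ a N * KT S chi * a N := Nat.mul_le_mul_right _ (Nat.mul_le_mul_right _ (hXa N))
      _ ≤ (C * Nat.card V1 ^ N) * KT S chi * (C * Nat.card V1 ^ N) :=
        Nat.mul_le_mul (Nat.mul_le_mul_right _ (hC N)) (hC N)
      _ = KT S chi * C ^ 2 * ((Nat.card V1 ^ 2) ^ N * 1 ^ N) := by rw [one_pow]; ring
      _ ≤ KT S chi * C ^ 2 * ((Nat.card V1 ^ 2) ^ N * 2 ^ N) :=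
        Nat.mul_le_mul_left _ (Nat.mul_le_mul_left _ (Nat.pow_le_pow_left (by norm_num) N))
      _ = _ := by rw [mul_pow]; ring
  · -- corank one
    push Not at hcase
    obtain ⟨C, hC⟩ := hC
    have key : ∀ N, X N * 2 ^ N ≤ a N * KB S chi * 2 ^ s := by
      intro N
      rcases Nat.lt_or_ge s N with hN | hN
      · obtain ⟨n, rfl⟩ : ∃ n, N = s + (n + 1) := ⟨N - s - 1, by omega⟩
        obtain ⟨x, hx, hxK⟩ := hcase (s + (n + 1)) (by omega)
        obtain ⟨z, hz, hz1⟩ := exists_pr hx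
        have hq1 : (2 : ℕ) ^ (n + 1) • q S H chi (s + (n + 1)) z ≠ 0 := by
          rw [← hQ.pow s (n + 1) z hz]
          refine hq _ (pr_pow (n + 1) hz) fun hK => hxK ?_
          obtain ⟨w, hw, h1⟩ := hK
          refine ⟨w, hw, fun g => ?_⟩
          rw [← h1 g, Prod.smul_fst, Pi.smul_apply, ← mul_smul, ← pow_add, hz1]
          congr 2
          omega
        obtain ⟨hfr, hcr⟩ := card_Pr_le h hchi (s + (n + 1)) (hfin _)
        let θ : rsG S h chi (s + (n + 1)) →+ M := AddMonoidHom.mk'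
          (fun y => bb S H chi (s + (n + 1)) y z) (fun y y' => hQ.add _ _ _ _ y.2 y'.2 hz)
        have : Finite (rsG S h chi (s + (n + 1))) := hfr
        have hQ0 : ∀ x : {x : G → V // ∃ y, IsWSel S dg chi (s + (n + 1)) x y}, ∃ Q : Pl → V,
            (∀ v, ∀ g ∈ S.D v, x.1 g = dl chi (Q v) g) ∧
            bb S H chi (s + (n + 1)) (wPr S x.1 Q) z = 0 := fun x => by
          obtain ⟨y, hy⟩ := x.2
          choose Q R hQR using hy.loc
          exact ⟨Q, fun v g hg => (hQR v g hg).1, hBW _ _ _ Q R z hy hQR hz⟩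
        choose Q0 hQ01 hQ02 using hQ0
        have hsel : ∀ x : {x : G → V // ∃ y, IsWSel S dg chi (s + (n + 1)) x y},
            S.IsSel chi (s + (n + 1)) x.1 := fun x => x.2.choose_spec.sel
        let g : {x : G → V // ∃ y, IsWSel S dg chi (s + (n + 1)) x y} →
            rsG S h chi (s + (n + 1)) := fun x => ⟨wPr S x.1 (Q0 x), isPr_wPr (hsel x) (hQ01 x)⟩
        have hg : Function.Injective g := fun x x' hxx => Subtype.ext
          (congrArg (fun p : rsG S h chi (s + (n + 1)) => p.1.1) hxx)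
        have h5 := card_ker_le θ ⟨z, hz⟩ n (by
            change (2 : ℕ) ^ n • bb S H chi (s + (n + 1)) z z ≠ 0
            rw [hQ.self _ z hz, ← mul_smul, ← pow_succ]
            exact hq1) (ht _) (Set.range g) (by
            rintro _ ⟨x, rfl⟩
            exact hQ02 x)
        have h6 : Nat.card (Set.range g) = X (s + (n + 1)) := by
          rw [hX]
          exact (Nat.card_congr (Equiv.ofInjective g hg)).symm
        rw [h6] at h5
        calc X (s + (n + 1)) * 2 ^ (s + (n + 1)) = (X (s + (n + 1)) * 2 ^ (n + 1)) * 2 ^ s := by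
              rw [pow_add]; ring
          _ ≤ Nat.card (rsG S h chi (s + (n + 1))) * 2 ^ s := Nat.mul_le_mul_right _ h5
          _ ≤ _ := Nat.mul_le_mul_right _ hcr
      · exact Nat.mul_le_mul ((hXa N).trans (Nat.le_mul_of_pos_right _ hKB))
          (Nat.pow_le_pow_right (by norm_num) hN)
    refine ⟨KB S chi * KT S chi * 2 ^ s * C ^ 2, fun N => ⟨hWf N, ?_⟩⟩
    have h2N : 0 < 2 ^ N := by positivity
    refine Nat.le_of_mul_le_mul_right ?_ h2N
    calc Nat.card {p : (G → V) × (G → V) // IsWSel S dg chi N p.1 p.2} * 2 ^ N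
        ≤ (X N * KT S chi * a N) * 2 ^ N := Nat.mul_le_mul_right _ (hW N)
      _ = (X N * 2 ^ N) * (KT S chi * a N) := by ring
      _ ≤ (a N * KB S chi * 2 ^ s) * (KT S chi * a N) := Nat.mul_le_mul_right _ (key N)
      _ = (KB S chi * KT S chi * 2 ^ s) * (a N * a N) := by ring
      _ ≤ (KB S chi * KT S chi * 2 ^ s) *
          ((C * (2 * Nat.card V1) ^ N) * (C * (2 * Nat.card V1) ^ N)) :=
        Nat.mul_le_mul_left _ (Nat.mul_le_mul (hC N) (hC N))
      _ = _ := by
        rw [mul_pow, mul_pow]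
        ring

end Pool.Agent.SmNH
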