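import Pool.Agent.Lib.SmN.P.Weil
import Pool.Agent.Lib.SmH.Link.Deg

/-!
# SMITH, heights: the link, cochain level

`IsWL`: `(x, y)` is a Selmer cocycle of level `j` of the module `V ⊗ Z[T]/T^2`, `s` acting by
`(1 + deg(s) T) s`. `FFc e j dg chi y z η s t = deg(s) s η(t) - e_j (y(s), s * z(t))`, where
`dη = x ∪ z`. `ff_coc`: this is a 2-cocycle; `ff_loc`: at a place it is cohomologous to
`deg ∪ (η - η_v)`, `η_v(t) = e_m (Q, t * Q' - Q')`.
-/

set_option autoImplicit false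

namespace Pool.Agent.SmNH

open Pool.Agent.SmN Pool.Agent.SmH

variable {G V V1 Pl M : Type*} [Group G] [AddCommGroup V] [DistribMulAction G V]
  [AddCommGroup V1] [Module (ZMod 2) V1] [AddCommGroup M] [DistribMulAction G M]
variable {S : Sys G V V1 Pl} {e : ℕ → V → V → M} {hf : ZMod 2 →+ M} {dg : ℕ → G → ℕ}
variable {chi : G → ZMod 2}

/-- `(x, y)` is a cocycle with values in `V[2^j] ⊗ Z[T]/T^2`. -/
structure IsWCoc (dg : ℕ → G → ℕ) (chi : G → ZMod 2) (j : ℕ) (x y : G → V) : Prop where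
  xlev : ∀ s, (2 : ℕ) ^ j • x s = 0
  ylev : ∀ s, (2 : ℕ) ^ j • y s = 0
  xcoc : ∀ s t, x (s * t) = x s + tw chi s (x t)
  ycoc : ∀ s t, y (s * t) = y s + tw chi s (y t) + ds dg s (tw chi s (x t))

/-- The 2-cocycle `deg ∪ η - y ∪ z`. -/
noncomputable def FFc (e : ℕ → V → V → M) (j : ℕ) (dg : ℕ → G → ℕ) (chi : G → ZMod 2)
    (y z : G → V) (η : G → M) (s t : G) : M :=
  ds dg s (s • η t) - e j (y s) (tw chi s (z t))

/-- `V[2^j]` is stable under the twisted action. -/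
theorem tw_lev {j : ℕ} (s : G) {x : V} (hx : (2 : ℕ) ^ j • x = 0) :
    (2 : ℕ) ^ j • tw chi s x = 0 := by rw [← tw_nsmul, hx, tw_zero]

theorem smul_lev {j : ℕ} (s : G) {x : M} (hx : (2 : ℕ) ^ j • x = 0) :
    (2 : ℕ) ^ j • (s • x) = 0 := by rw [smul_comm, hx, smul_zero]

theorem e_lev (hw : Weil S e hf) {j : ℕ} {x y : V} (hx : (2 : ℕ) ^ j • x = 0)
    (hy : (2 : ℕ) ^ j • y = 0) : (2 : ℕ) ^ j • e j x y = 0 := by
  have h := map_nsmul (hw.B j ⟨x, hx⟩) (2 ^ j) ⟨y, hy⟩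
  have h0 : (2 : ℕ) ^ j • (⟨y, hy⟩ : Tor V j) = 0 := Subtype.ext hy
  rw [h0, map_zero] at h
  exact h.symm

/-- `ds` and the pairing. -/
theorem e_ds_left (hw : Weil S e hf) (hd : IsDeg dg) (s : G) {j : ℕ} {x y : V}
    (hx : (2 : ℕ) ^ j • x = 0) (hy : (2 : ℕ) ^ j • y = 0) :
    e j (ds dg s x) y = ds dg s (e j x y) := by
  let f : Tor V j →+ M := (hw.B j).flip ⟨y, hy⟩
  have h1 : f (ds dg s (⟨x, hx⟩ : Tor V j)) = ds dg s (f ⟨x, hx⟩) :=
    map_ds hd f s (m := j) (Subtype.ext hx)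
  have h3 : ((ds dg s (⟨x, hx⟩ : Tor V j) : Tor V j) : V) = ds dg s x :=
    map_ds hd (Tor V j).subtype s (m := j) (Subtype.ext hx)
  change e j ((ds dg s (⟨x, hx⟩ : Tor V j) : Tor V j) : V) y = ds dg s (e j x y) at h1
  rwa [h3] at h1

theorem smul_ds (hd : IsDeg dg) (s t : G) {a : M} {m : ℕ} (ha : (2 : ℕ) ^ m • a = 0) :
    t • ds dg s a = ds dg s (t • a) :=
  map_ds hd (DistribSMul.toAddMonoidHom M t) s ha

theorem tw_ds (hd : IsDeg dg) (s t : G) {a : V} {m : ℕ} (ha : (2 : ℕ) ^ m • a = 0) :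
    tw chi t (ds dg s a) = ds dg s (tw chi t a) :=
  map_ds hd (AddMonoidHom.mk' (tw chi t) fun a b => tw_add chi t a b) s ha

section global

variable {j : ℕ} {x y z : G → V} {η : G → M}

/-- `deg ∪ η - y ∪ z` is a cocycle. -/
theorem ff_coc (hw : Weil S e hf) (hd : IsDeg dg) (hchi : ∀ s t, chi (s * t) = chi s + chi t)
    (hxy : IsWCoc dg chi j x y) (hzl : ∀ s, (2 : ℕ) ^ j • z s = 0)
    (hzc : ∀ s t, z (s * t) = z s + tw chi s (z t))
    (hηl : ∃ m : ℕ, ∀ s, (2 : ℕ) ^ m • η s = 0)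
    (hη : ∀ s t, η s + s • η t - η (s * t) = e j (x s) (tw chi s (z t))) (s t u : G) :
    FFc e j dg chi y z η s t + FFc e j dg chi y z η (s * t) u =
      s • FFc e j dg chi y z η t u + FFc e j dg chi y z η s (t * u) := by
  obtain ⟨m, hm⟩ := hηl
  have hz : ∀ s t, (2 : ℕ) ^ j • tw chi s (z t) = 0 := fun s t => tw_lev s (hzl t)
  have hx : ∀ s t, (2 : ℕ) ^ j • tw chi s (x t) = 0 := fun s t => tw_lev s (hxy.xlev t)
  have hy : ∀ s t, (2 : ℕ) ^ j • tw chi s (y t) = 0 := fun s t => tw_lev s (hxy.ylev t)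
  have hsη : ∀ (s t : G), (2 : ℕ) ^ m • (s • η t) = 0 := fun s t => smul_lev s (hm t)
  -- the pairing part
  have e1 : e j (y (s * t)) (tw chi (s * t) (z u)) =
      e j (y s) (tw chi (s * t) (z u)) + s • e j (y t) (tw chi t (z u)) +
        ds dg s (s • e j (x t) (tw chi t (z u))) := by
    have h2 : (2 : ℕ) ^ j • (y s + tw chi s (y t)) = 0 := by
      rw [smul_add, hxy.ylev, hy, add_zero]
    rw [hxy.ycoc, hw.add_left j _ _ _ h2 (pow_ds hd s (hx s t)) (hz _ _),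
      hw.add_left j _ _ _ (hxy.ylev s) (hy s t) (hz _ _),
      e_ds_left hw hd s (hx s t) (hz _ _), tw_mul hchi,
      hw.tw_equiv chi j s (hxy.ylev t) (hz _ _), hw.tw_equiv chi j s (hxy.xlev t) (hz _ _)]
  have e2 : e j (y s) (tw chi s (z (t * u))) =
      e j (y s) (tw chi s (z t)) + e j (y s) (tw chi (s * t) (z u)) := by
    rw [hzc, tw_add, ← tw_mul hchi, hw.add_right j _ _ _ (hxy.ylev s) (hz _ _) (hz _ _)]
  -- the degree part
  have e3 : ds dg (s * t) ((s * t) • η u) = ds dg s ((s * t) • η u) + ds dg t ((s * t) • η u) :=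
    ds_mul hd s t (hsη _ _)
  have e4 : s • ds dg t (t • η u) = ds dg t ((s * t) • η u) := by
    rw [smul_ds hd t s (hsη t u), smul_smul]
  have hc : ∀ t u, (2 : ℕ) ^ j • e j (x t) (tw chi t (z u)) = 0 := fun t u =>
    e_lev hw (hxy.xlev t) (hz t u)
  have e5 : ds dg s (s • e j (x t) (tw chi t (z u))) =
      ds dg s (s • η t) + ds dg s ((s * t) • η u) - ds dg s (s • η (t * u)) := by
    rw [← hη t u, smul_sub, smul_add, smul_smul,
      ds_sub hd s (m := m) (by rw [smul_add, hsη, hsη, add_zero]) (hsη _ _),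
      ds_add hd s (hsη _ _) (hsη _ _)]
  simp only [FFc]
  rw [smul_sub, e1, e2, e3, e4, e5]
  abel

end global

section loc

variable {j m : ℕ} {x y z : G → V} {η : G → M} {D : Subgroup G} {Q R Q' : V}

/-- The local cochain `η_v`. -/
def etaV (e : ℕ → V → V → M) (m : ℕ) (chi : G → ZMod 2) (Q Q' : V) (t : G) : M :=
  e m Q (dl chi Q' t)

/-- `d η_v = x ∪ z`. -/
theorem etaV_d (hw : Weil S e hf) (hchi : ∀ s t, chi (s * t) = chi s + chi t) (hjm : j ≤ m)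
    (hQ : (2 : ℕ) ^ m • Q = 0) (hQ' : ∀ s ∈ D, (2 : ℕ) ^ (m - j) • dl chi Q' s = z s)
    (hxl : ∀ s, (2 : ℕ) ^ j • x s = 0) (hzl : ∀ s, (2 : ℕ) ^ j • z s = 0)
    (hx : ∀ s ∈ D, x s = dl chi Q s) (s : G) (hs : s ∈ D) (t : G) (ht : t ∈ D) :
    etaV e m chi Q Q' s + s • etaV e m chi Q Q' t - etaV e m chi Q Q' (s * t) =
      e j (x s) (tw chi s (z t)) := by
  obtain ⟨r, rfl⟩ := Nat.exists_eq_add_of_le hjm
  rw [Nat.add_sub_cancel_left] at hQ'
  have hl : ∀ t ∈ D, (2 : ℕ) ^ (j + r) • dl chi Q' t = 0 := fun t ht => by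
    rw [pow_add, mul_comm, mul_comm, mul_smul, hQ' t ht, hzl]
  have hl' : (2 : ℕ) ^ (j + r) • tw chi s (dl chi Q' t) = 0 := tw_lev s (hl t ht)
  have hQs : (2 : ℕ) ^ (j + r) • tw chi s Q = 0 := tw_lev s hQ
  have h1 : dl chi Q' (s * t) = dl chi Q' s + tw chi s (dl chi Q' t) := by
    rw [dl_mul hchi]
  simp only [etaV]
  rw [h1, hw.add_right _ _ _ _ hQ (hl s hs) hl', ← hw.tw_equiv chi _ s hQ (hl t ht)]
  have h3 : e (j + r) (tw chi s Q) (tw chi s (dl chi Q' t)) - e (j + r) Q (tw chi s (dl chi Q' t)) =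
      e (j + r) (x s) (tw chi s (dl chi Q' t)) := by
    rw [hx s hs, show dl chi Q s = tw chi s Q - Q from rfl, hw.sub_left hQs hQ hl']
  have h5 : e (j + r) (x s) (tw chi s (dl chi Q' t)) = e j (x s) (tw chi s (z t)) := by
    rw [hw.comp_pow r (hxl s) hl', ← tw_nsmul, hQ' t ht]
  rw [← h5, ← h3]
  abel

/-- `deg ∪ η - y ∪ z` is cohomologous to `deg ∪ (η - η_v)` on `D`. -/
theorem ff_loc (hw : Weil S e hf) (hd : IsDeg dg) (hchi : ∀ s t, chi (s * t) = chi s + chi t)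
    (hjm : j ≤ m) (hQ : (2 : ℕ) ^ m • Q = 0) (hR : (2 : ℕ) ^ m • R = 0)
    (hQ' : ∀ s ∈ D, (2 : ℕ) ^ (m - j) • dl chi Q' s = z s)
    (hyl : ∀ s, (2 : ℕ) ^ j • y s = 0) (hzl : ∀ s, (2 : ℕ) ^ j • z s = 0)
    (hy : ∀ s ∈ D, y s = dl chi R s + ds dg s (tw chi s Q))
    (hηl : ∀ s, (2 : ℕ) ^ m • η s = 0) (s : G) (hs : s ∈ D) (t : G) (ht : t ∈ D) :
    FFc e j dg chi y z η s t = ds dg s (s • (η t - etaV e m chi Q Q' t)) -
      (etaV e m chi R Q' s + s • etaV e m chi R Q' t - etaV e m chi R Q' (s * t)) := by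
  obtain ⟨r, rfl⟩ := Nat.exists_eq_add_of_le hjm
  rw [Nat.add_sub_cancel_left] at hQ'
  have hl : ∀ t ∈ D, (2 : ℕ) ^ (j + r) • dl chi Q' t = 0 := fun t ht => by
    rw [pow_add, mul_comm, mul_comm, mul_smul, hQ' t ht, hzl]
  have hl' : (2 : ℕ) ^ (j + r) • tw chi s (dl chi Q' t) = 0 := tw_lev s (hl t ht)
  have hQs : (2 : ℕ) ^ (j + r) • tw chi s Q = 0 := tw_lev s hQ
  have hRs : (2 : ℕ) ^ (j + r) • tw chi s R = 0 := tw_lev s hR
  have hdR : (2 : ℕ) ^ (j + r) • dl chi R s = 0 := by rw [dl, smul_sub, hRs, hR, sub_zero]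
  have h1 : dl chi Q' (s * t) = dl chi Q' s + tw chi s (dl chi Q' t) := by
    rw [dl_mul hchi]
  -- the pairing part
  have e1 : e j (y s) (tw chi s (z t)) = e (j + r) (tw chi s R) (tw chi s (dl chi Q' t)) -
      e (j + r) R (tw chi s (dl chi Q' t)) + ds dg s (s • e (j + r) Q (dl chi Q' t)) := by
    have h5 : e (j + r) (y s) (tw chi s (dl chi Q' t)) = e j (y s) (tw chi s (z t)) := by
      rw [hw.comp_pow r (hyl s) hl', ← tw_nsmul, hQ' t ht]
    rw [← h5, hy s hs, hw.add_left _ _ _ _ hdR (pow_ds hd s hQs) hl', e_ds_left hw hd s hQs hl',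
      show dl chi R s = tw chi s R - R from rfl, hw.sub_left hRs hR hl',
      hw.tw_equiv chi _ s hQ (hl t ht)]
  have e2 : etaV e (j + r) chi R Q' s + s • etaV e (j + r) chi R Q' t -
      etaV e (j + r) chi R Q' (s * t) = e (j + r) (tw chi s R) (tw chi s (dl chi Q' t)) -
      e (j + r) R (tw chi s (dl chi Q' t)) := by
    simp only [etaV]
    rw [h1, hw.add_right _ _ _ _ hR (hl s hs) hl', ← hw.tw_equiv chi _ s hR (hl t ht)]
    abel
  have e3 : (2 : ℕ) ^ (j + r) • (s • etaV e (j + r) chi Q Q' t) = 0 :=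
    smul_lev s (e_lev hw hQ (hl t ht))
  have e4 : ds dg s (s • (η t - etaV e (j + r) chi Q Q' t)) =
      ds dg s (s • η t) - ds dg s (s • e (j + r) Q (dl chi Q' t)) := by
    rw [smul_sub, ds_sub hd s (smul_lev s (hηl t)) e3]
    rfl
  rw [FFc, e4, e2, e1]
  abel

end loc

end Pool.Agent.SmNH
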