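import Pool.Agent.Lib.SmN.P.Coh
import Pool.Agent.Lib.SmNH.Defs
import Pool.Agent.Lib.SmNH.Link.Coc
import Pool.Agent.Lib.SmNH.Link.WSel

/-!
# SMITH, heights: the link, reciprocity

`link_core`: for a Selmer cocycle `(x, y)` of the module `V ⊗ Z[T]/T^2` and a Selmer cocycle `z`, with
local points `Q`, `R`, `Qz = 2^(m-j) Q'`, and `η` with `dη = x ∪ z`: the sum of the
`deg(v) ord_v (η - η_v)` is zero.
-/

set_option autoImplicit false

namespace Pool.Agent.SmNH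

open Pool.Agent.SmN Pool.Agent.SmH

variable {G V V1 Pl M : Type*} [Group G] [AddCommGroup V] [DistribMulAction G V]
  [AddCommGroup V1] [Module (ZMod 2) V1] [AddCommGroup M] [DistribMulAction G M]
variable {S : Sys G V V1 Pl} {H : HData V M Pl} {dg : ℕ → G → ℕ} {chi : G → ZMod 2}

/-- The degree modulo `2 ^ m` is 2-finite. -/
def DegTF (S : Sys G V V1 Pl) (dg : ℕ → G → ℕ) : Prop :=
  ∀ m, ∃ N ∈ S.NN, ∀ n ∈ N, dg m n ≡ 0 [MOD 2 ^ m]

theorem HOk.exists_exp (hH : HOk S H) {A : Set M} (hA : A.Finite) :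
    ∃ k : ℕ, ∀ m ∈ A, (2 : ℕ) ^ k • m = 0 := by
  induction A, hA using Set.Finite.induction_on with
  | empty => exact ⟨0, fun m hm => hm.elim⟩
  | @insert a A _ _ ih =>
    obtain ⟨k, hk⟩ := ih
    obtain ⟨j, hj⟩ := hH.tors a
    refine ⟨k + j, fun m hm => ?_⟩
    rcases hm with rfl | hm
    · rw [pow_add, mul_smul, hj, smul_zero]
    · rw [add_comm, pow_add, mul_smul, hk m hm, smul_zero]

theorem HOk.act_fin (h : S.Ok) (hH : HOk S H) {A : Set M} (hA : A.Finite) :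
    ∃ N ∈ S.NN, ∀ s ∈ N, ∀ m ∈ A, s • m = m := by
  induction A, hA using Set.Finite.induction_on with
  | empty => exact ⟨⊤, h.top_mem, fun s _ m hm => hm.elim⟩
  | @insert a A _ _ ih =>
    obtain ⟨N, hN, h1⟩ := ih
    obtain ⟨N', hN', h2⟩ := hH.act a
    refine ⟨N ⊓ N', h.inf_mem _ hN _ hN', fun s hs m hm => ?_⟩
    rcases hm with rfl | hm
    · exact h2 s hs.2
    · exact h1 s hs.1 m hm

/-- The members of `NN` have finite index. -/
def FinI (S : Sys G V V1 Pl) : Prop := ∀ N ∈ S.NN, N.FiniteIndex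

/-- A 2-finite function has finitely many values. -/
theorem fin_range (hI : FinI S) {α : Type*} {f : G → α} (hf' : S.TF f) : (Set.range f).Finite := by
  obtain ⟨N, hN, h1⟩ := hf'
  have : N.FiniteIndex := hI N hN
  have : Finite (G ⧸ N) := N.finite_quotient_of_finiteIndex
  refine (Set.finite_range (fun q : G ⧸ N => f q.out)).subset ?_
  rintro _ ⟨s, rfl⟩
  obtain ⟨n, hn⟩ := QuotientGroup.mk_out_eq_mul N s
  refine ⟨(s : G ⧸ N), ?_⟩
  beta_reduce
  rw [hn, h1 s n n.2]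

/-- A 2-finite cochain with values in `M` has bounded level. -/
theorem HOk.exists_lev (hI : FinI S) (hH : HOk S H) {b : G → M} (hb : S.TF b) :
    ∃ k : ℕ, ∀ s, (2 : ℕ) ^ k • b s = 0 := by
  obtain ⟨k, hk⟩ := hH.exists_exp (fin_range hI hb)
  exact ⟨k, fun s => hk _ ⟨s, rfl⟩⟩

/-- Cup products are 2-finite. -/
theorem cup_tf2 (h : S.Ok) (hchi : S.HomG chi) {j : ℕ} {x z : G → V} (hx : S.TF x) (hz : S.TF z)
    (hzl : ∀ s, (2 : ℕ) ^ j • z s = 0) :
    S.TF2 (fun s t => H.e j (x s) (tw chi s (z t))) := by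
  obtain ⟨N1, hN1, h1⟩ := hx
  obtain ⟨N2, hN2, h2⟩ := hz
  obtain ⟨N3, hN3, h3⟩ := Sys.act_tf h hchi j
  refine ⟨N1 ⊓ (N2 ⊓ N3), h.inf_mem _ hN1 _ (h.inf_mem _ hN2 _ hN3), fun s t n hn k hk => ?_⟩
  beta_reduce
  rw [h1 s n hn.1, h2 t k hk.2.1, h3 s n hn.2.2 _ (hzl t)]

/-- Cup products of cocycles are cocycles. -/
theorem cup_coc (hw : Weil S H.e H.j) (hchi : ∀ s t, chi (s * t) = chi s + chi t) {j : ℕ}
    {x z : G → V} (hxl : ∀ s, (2 : ℕ) ^ j • x s = 0) (hzl : ∀ s, (2 : ℕ) ^ j • z s = 0)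
    (hxc : ∀ s t, x (s * t) = x s + tw chi s (x t)) (hzc : ∀ s t, z (s * t) = z s + tw chi s (z t))
    (s t w : G) :
    H.e j (x s) (tw chi s (z t)) + H.e j (x (s * t)) (tw chi (s * t) (z w)) =
      s • H.e j (x t) (tw chi t (z w)) + H.e j (x s) (tw chi s (z (t * w))) := by
  have hz : ∀ s t, (2 : ℕ) ^ j • tw chi s (z t) = 0 := fun s t => tw_lev s (hzl t)
  have hx : ∀ s t, (2 : ℕ) ^ j • tw chi s (x t) = 0 := fun s t => tw_lev s (hxl t)
  rw [hxc, hw.add_left j _ _ _ (hxl s) (hx s t) (hz _ _), hzc, tw_add, ← tw_mul hchi,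
    hw.add_right j _ _ _ (hxl s) (hz _ _) (hz _ _), tw_mul hchi,
    hw.tw_equiv chi j s (hxl t) (hz _ _)]
  abel

/-- The local cochain is 2-finite. -/
theorem etaV_tf (h : S.Ok) (hchi : S.HomG chi) (m : ℕ) (Q Q' : V) :
    S.TF (etaV H.e m chi Q Q') :=
  Sys.TF.comp (Sys.dl_tf h hchi Q') (fun a => H.e m Q a)

/-- The value at `1` of a cochain which splits a cup product of cocycles. -/
theorem eta_one (hw : Weil S H.e H.j) {j : ℕ} {x z : G → V} (hzl : ∀ s, (2 : ℕ) ^ j • z s = 0)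
    (hxc : ∀ s t, x (s * t) = x s + tw chi s (x t)) (hchi : ∀ s t, chi (s * t) = chi s + chi t)
    {η : G → M} (hη : ∀ s t, η s + s • η t - η (s * t) = H.e j (x s) (tw chi s (z t))) :
    η 1 = 0 := by
  have hc1 : chi 1 = 0 := by
    have := hchi 1 1
    rw [mul_one] at this
    simpa using this
  have hx1 : x 1 = 0 := by
    have := hxc 1 1
    rw [mul_one] at this
    have h2 : tw chi 1 (x 1) = x 1 := by rw [tw, hc1, one_smul]; simp [sgn]
    rw [h2] at this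
    simpa using this
  have := hη 1 1
  rw [one_smul, mul_one, add_sub_cancel_right, hx1] at this
  rw [this, hw.zero_left (tw_lev 1 (hzl 1))]

/-- `deg ∪ η - y ∪ z` is 2-finite. -/
theorem ff_tf2 (h : S.Ok) (hI : FinI S) (hH : HOk S H) (hd : IsDeg dg) (hdT : DegTF S dg) (hchi : S.HomG chi)
    {j : ℕ} {y z : G → V} {η : G → M} (hy : S.TF y) (hz : S.TF z)
    (hzl : ∀ s, (2 : ℕ) ^ j • z s = 0) (hη : S.TF η) :
    S.TF2 (FFc H.e j dg chi y z η) := by
  obtain ⟨N1, hN1, h1⟩ := cup_tf2 (H := H) h hchi hy hz hzl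
  obtain ⟨m, hm⟩ := hH.exists_lev hI hη
  obtain ⟨N2, hN2, h2⟩ := hdT m
  obtain ⟨N3, hN3, h3⟩ := hH.act_fin h (fin_range hI hη)
  obtain ⟨N4, hN4, h4⟩ := hη
  refine ⟨N1 ⊓ (N2 ⊓ (N3 ⊓ N4)), h.inf_mem _ hN1 _ (h.inf_mem _ hN2 _ (h.inf_mem _ hN3 _ hN4)),
    fun s t n hn k hk => ?_⟩
  have e1 := h1 s t n hn.1 k hk.1
  beta_reduce at e1
  rw [FFc, FFc, e1, h4 t k hk.2.2.2, mul_smul, h3 n hn.2.2.1 _ ⟨t, rfl⟩,
    ds_mul hd s n (smul_lev s (hm t)), ds_eq hd n (smul_lev s (hm t)),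
    nsmul_congr (smul_lev s (hm t)) (h2 n hn.2.1), zero_smul, add_zero]

theorem dl_one' (hc : chi 1 = 0) (Q : V) : dl chi Q 1 = 0 := by
  rw [dl, tw, hc, one_smul]; simp [sgn]

/-- `dl chi Q s = 0` if `s` acts trivially and `chi s = 0`. -/
theorem dl_triv {s : G} {Q : V} (hc : chi s = 0) (hs : s • Q = Q) : dl chi Q s = 0 := by
  rw [dl, tw, hc, hs]; simp [sgn]

/-- Reciprocity for `(x, y)` and `z`. -/
theorem link_core (h : S.Ok) (hI : FinI S) (hH : HOk S H) (hd : IsDeg dg) (hdT : DegTF S dg)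
    (hR : RecDeg S dg H.deg H.nm) (hchi : S.HomG chi) {j : ℕ} {x y z : G → V} {η : G → M}
    (hxt : S.TF x) (hyt : S.TF y) (hxy : IsWCoc dg chi j x y) (hzt : S.TF z)
    (hzl : ∀ s, (2 : ℕ) ^ j • z s = 0) (hzc : ∀ s t, z (s * t) = z s + tw chi s (z t))
    (hηt : S.TF η) (hη : ∀ s t, η s + s • η t - η (s * t) = H.e j (x s) (tw chi s (z t)))
    (m : Pl → ℕ) (Q R Q' : Pl → V) (hjm : ∀ v, j ≤ m v)
    (hQ : ∀ v, (2 : ℕ) ^ (m v) • Q v = 0) (hRl : ∀ v, (2 : ℕ) ^ (m v) • R v = 0)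
    (hQ' : ∀ v, ∀ s ∈ S.D v, (2 : ℕ) ^ (m v - j) • dl chi (Q' v) s = z s)
    (hx : ∀ v, ∀ s ∈ S.D v, x s = dl chi (Q v) s)
    (hy : ∀ v, ∀ s ∈ S.D v, y s = dl chi (R v) s + ds dg s (tw chi s (Q v))) :
    ({v | η (S.sg v) - etaV H.e (m v) chi (Q v) (Q' v) (S.sg v) ≠ 0}).Finite ∧
    ∑ᶠ v, H.deg v • H.nm v (η (S.sg v) - etaV H.e (m v) chi (Q v) (Q' v) (S.sg v)) = 0 := by
  have hw := hH.weil
  have hfin : ({v | η (S.sg v) - etaV H.e (m v) chi (Q v) (Q' v) (S.sg v) ≠ 0}).Finite := by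
    obtain ⟨N1, hN1, h1⟩ := hηt
    obtain ⟨N2, hN2, h2⟩ := hchi.1
    refine ((h.unr _ (h.inf_mem _ hN1 _ hN2)).union h.good_fin).subset fun v hv => ?_
    by_contra hcon
    rw [Set.mem_union, not_or] at hcon
    have hs : S.sg v ∈ N1 ⊓ N2 := by
      by_contra h3
      exact hcon.1 h3
    have hg : v ∈ S.good := by
      by_contra h3
      exact hcon.2 h3
    apply hv
    have e1 : η (S.sg v) = 0 := by
      rw [← one_mul (S.sg v), h1 1 _ hs.1]
      exact eta_one hw hzl hxy.xcoc hchi.2 hη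
    have hc1 : chi 1 = 0 := by
      have := hchi.2 1 1
      rw [mul_one] at this
      simpa using this
    have e2 : chi (S.sg v) = 0 := by
      rw [← one_mul (S.sg v), h2 1 _ hs.2, hc1]
    have e3 : dl chi (Q' v) (S.sg v) = 0 := dl_triv e2 (h.good_triv v hg _)
    rw [e1, etaV, e3, hw.zero_right (hQ v), sub_zero]
  refine ⟨hfin, ?_⟩
  have key : ∀ v, ∃ k, m v ≤ k ∧ ∀ s, (2 : ℕ) ^ k • η s = 0 := fun v => by
    obtain ⟨k, hk⟩ := hH.exists_lev hI hηt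
    exact ⟨m v + k, by omega, fun s => pow_le (by omega) (hk s)⟩
  choose k hk1 hk2 using key
  -- halving: `Q'` up to level `k`
  have hhalf : ∀ (r : ℕ) (Q : V), ∃ Q'' : V, (2 : ℕ) ^ r • Q'' = Q := by
    intro r
    induction r with
    | zero => exact fun Q => ⟨Q, by rw [pow_zero, one_smul]⟩
    | succ r ih =>
      intro Q
      obtain ⟨Q1, h1⟩ := h.half Q
      obtain ⟨Q2, h2⟩ := ih Q1
      exact ⟨Q2, by rw [pow_succ, mul_comm, mul_smul, h2, h1]⟩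
  have hQk : ∀ v, ∃ Q'' : V, (2 : ℕ) ^ (k v - m v) • Q'' = Q' v := fun v => hhalf _ _
  choose Q2 hQ2 using hQk
  have hdl : ∀ (n : ℕ) (P : V) (s : G), dl chi ((2 : ℕ) ^ n • P) s = (2 : ℕ) ^ n • dl chi P s :=
    fun n P s => by rw [dl, dl, tw_nsmul, smul_sub]
  have hQ2' : ∀ v, ∀ s ∈ S.D v, (2 : ℕ) ^ (k v - j) • dl chi (Q2 v) s = z s := fun v s hs => by
    rw [← hQ' v s hs, ← hQ2 v, hdl, ← mul_smul, ← pow_add]
    congr 2
    have := hjm v
    have := hk1 v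
    omega
  have heq : ∀ v, ∀ s ∈ S.D v, etaV H.e (k v) chi (Q v) (Q2 v) s =
      etaV H.e (m v) chi (Q v) (Q' v) s := fun v s hs => by
    obtain ⟨r, hr⟩ := Nat.exists_eq_add_of_le (hk1 v)
    have e1 : (2 : ℕ) ^ (k v) • dl chi (Q2 v) s = 0 := by
      have e2 : (2 : ℕ) ^ (k v) = 2 ^ j * 2 ^ (k v - j) := by
        rw [← pow_add]
        congr 1
        have := hjm v
        have := hk1 v
        omega
      rw [e2, mul_smul, hQ2' v s hs, hzl]
    have e3 : k v - m v = r := by omega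
    rw [etaV, etaV, hr, hw.comp_pow r (hQ v) (by rw [← hr]; exact e1), ← hdl, ← e3, hQ2]
  have hres := hR (FFc H.e j dg chi y z η)
    (fun v t => η t - etaV H.e (k v) chi (Q v) (Q2 v) t)
    (fun v t => -etaV H.e (k v) chi (R v) (Q2 v) t)
    (ff_tf2 h hI hH hd hdT hchi hyt hzt hzl hηt)
    (ff_coc hw hd hchi.2 hxy hzl hzc (hH.exists_lev hI hηt) hη)
    (fun v => Sys.TFOn.comp₂ h (hηt.on _) ((etaV_tf h hchi _ _ _).on _) (fun a b => a - b))
    (fun v => ((etaV_tf h hchi _ _ _).on _).comp (fun a => -a))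
    (fun v s hs t ht => by
      beta_reduce
      have e1 := hη s t
      have e2 := etaV_d (j := j) (m := k v) (x := x) (z := z) (D := S.D v) (Q := Q v) (Q' := Q2 v)
        hw hchi.2 ((hjm v).trans (hk1 v)) (pow_le (hk1 v) (hQ v)) (hQ2' v)
        hxy.xlev hzl (hx v) s hs t ht
      rw [← e2] at e1
      rw [smul_sub]
      have e3 : η (s * t) = η s + s • η t - (etaV H.e (k v) chi (Q v) (Q2 v) s +
        s • etaV H.e (k v) chi (Q v) (Q2 v) t - etaV H.e (k v) chi (Q v) (Q2 v) (s * t)) := by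
        rw [← e1]; abel
      rw [e3]
      abel)
    (fun v s hs t ht => by
      beta_reduce
      have e2 := ff_loc (j := j) (m := k v) (y := y) (z := z) (η := η) (D := S.D v) (Q := Q v)
        (R := R v) (Q' := Q2 v) hw hd hchi.2 ((hjm v).trans (hk1 v)) (pow_le (hk1 v) (hQ v))
        (pow_le (hk1 v) (hRl v)) (hQ2' v) hxy.ylev hzl (hy v) (hk2 v) s hs t ht
      rw [e2, smul_neg]
      abel)
    (by
      refine hfin.subset fun v hv => ?_
      have := hv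
      simp only [Set.mem_setOf_eq] at this ⊢
      rwa [heq v _ (h.sg_mem v)] at this)
  rw [← hres]
  refine finsum_congr fun v => ?_
  beta_reduce
  rw [heq v _ (h.sg_mem v)]

end Pool.Agent.SmNH
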