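import Pool.Agent.Lib.SmNH.Q.Loc
import Pool.Agent.Lib.SmNH.Link.Core
import Pool.Agent.Lib.SmNH.Link.Card

/-!
# SMITH, heights: the link, the height pairing vanishes on W-cocycles

`bw_of`: for a Selmer cocycle `(x, y)` of the module `V ⊗ Z[T]/T^2`, `bb ((x, Q), z) = 0` for all
rigid Selmer elements `z`: it is twice the sum of `link_core`.
-/

set_option autoImplicit false

namespace Pool.Agent.SmNH

open Pool.Agent.SmN Pool.Agent.SmH

variable {G V V1 Pl M : Type*} [Group G] [AddCommGroup V] [DistribMulAction G V]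
  [AddCommGroup V1] [Module (ZMod 2) V1] [AddCommGroup M] [DistribMulAction G M]
variable {S : Sys G V V1 Pl} {H : HData V M Pl} {dg : ℕ → G → ℕ} {chi : G → ZMod 2}

theorem rhoQ_bt (i : ℕ) (Q : V) (t : G) : rhoQ H chi i Q t = bt H.e chi i t Q Q := rfl

/-- Existence of the splitting of a cup product of Selmer cocycles. -/
theorem exists_eta (h : S.Ok) (hH : HOk S H) (hchi : S.HomG chi) {i : ℕ} {x z : G → V}
    (hx : S.IsSel chi i x) (hz : S.IsSel chi i z) :
    ∃ η : G → M, S.TF η ∧ ∀ s t, η s + s • η t - η (s * t) = H.e i (x s) (tw chi s (z t)) := by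
  obtain ⟨η, h1, h2⟩ := hH.hasse (fun s t => H.e i (x s) (tw chi s (z t)))
    (cup_tf2 h hchi hx.tf hz.tf hz.lev)
    (cup_coc hH.weil hchi.2 hx.lev hz.lev hx.coc hz.coc)
    (fun v => by
      obtain ⟨Q, hQ⟩ := hx.loc v
      obtain ⟨Qz, hQz⟩ := hz.loc v
      obtain ⟨r, hr⟩ := h.tors Q
      obtain ⟨Q', hQ'⟩ := exists_pow_half h Qz r
      refine ⟨etaV H.e (i + r) chi Q Q', (etaV_tf h hchi _ _ _).on _, fun s hs t ht => ?_⟩
      beta_reduce
      rw [zero_add, etaV_d (j := i) (m := i + r) (x := x) (z := z) (D := S.D v) hH.weil hchi.2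
        (Nat.le_add_right i r) (pow_le (Nat.le_add_left r i) hr) (fun s hs => by
          rw [Nat.add_sub_cancel_left, ← dl_nsmul, hQ', hQz s hs]) hx.lev hz.lev hQ s hs t ht])
  exact ⟨η, h1, fun s t => (h2 s t).symm⟩

/-- The formula for the height form. -/
def QE (S : Sys G V V1 Pl) (H : HData V M Pl) (chi : G → ZMod 2) : Prop :=
  ∀ (i : ℕ) (y : (G → V) × (Pl → V)) (rho : G → M), IsPr S chi i y → IsRho S H chi i y.1 rho →
    q S H chi i y = ∑ᶠ v, H.deg v • H.nm v (rho (S.sg v) - rhoQ H chi i (y.2 v) (S.sg v))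

/-- The twisted action of `sg v` at a good place. -/
theorem tw_sg (h : S.Ok) {v : Pl} (hv : v ∈ S.good) :
    (∀ X : V, tw chi (S.sg v) X = X) ∨ (∀ X : V, tw chi (S.sg v) X = -X) := by
  rcases sgn_eq (chi (S.sg v)) with hc | hc
  · exact Or.inl fun X => by rw [tw, hc, h.good_triv v hv, one_smul]
  · exact Or.inr fun X => by rw [tw, hc, h.good_triv v hv, neg_one_smul]

theorem bt_goodL (h : S.Ok) (hH : HOk S H) {i : ℕ} {v : Pl} (hv : v ∈ S.good) {Q : V}
    (hQ : (2 : ℕ) ^ i • dl chi Q (S.sg v) = 0) : bt H.e chi i (S.sg v) Q Q = 0 := by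
  rcases tw_sg (chi := chi) h hv with h1 | h1
  · exact bt_triv h hH.weil (hH.sgM v) h1
  · exact bt_neg_one h hH.weil (hH.sgM v) h1 hQ

/-- The support of the local terms. -/
theorem rho_supp (h : S.Ok) (hH : HOk S H) (hchi : S.HomG chi) {i : ℕ}
    {y : (G → V) × (Pl → V)} {rho : G → M} (hy : IsPr S chi i y) (hr : IsRho S H chi i y.1 rho) :
    ({v | rho (S.sg v) - rhoQ H chi i (y.2 v) (S.sg v) ≠ 0}).Finite := by
  obtain ⟨N1, hN1, h1⟩ := hr.1
  refine ((h.unr _ hN1).union h.good_fin).subset fun v hv => ?_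
  by_contra hcon
  rw [Set.mem_union, not_or] at hcon
  have hs : S.sg v ∈ N1 := by
    by_contra h3
    exact hcon.1 h3
  have hg : v ∈ S.good := by
    by_contra h3
    exact hcon.2 h3
  apply hv
  have e1 : rho (S.sg v) = 0 := by
    rw [← one_mul (S.sg v), h1 1 _ hs]
    exact eta_one hH.weil hy.sel.lev hy.sel.coc hchi.2 (fun s t => (hr.2 s t).symm)
  rw [e1, hy.off v hg, rhoQ_bt, bt_goodL h hH hg (by rw [dl_zero, smul_zero]), sub_zero]

theorem supp_le {f : Pl → M} {deg : Pl → ℕ} {nm : Pl → M →+ M} (hf : {v | f v ≠ 0}.Finite) :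
    (Function.support fun v => deg v • nm v (f v)).Finite := by
  refine hf.subset fun v hv h0 => hv ?_
  beta_reduce
  rw [h0, map_zero, smul_zero]

/-- The height pairing of a W-cocycle and a rigid Selmer element is zero. -/
theorem bw_of (h : S.Ok) (hI : FinI S) (hH : HOk S H) (hd : IsDeg dg) (hdT : DegTF S dg)
    (hR : RecDeg S dg H.deg H.nm) (hchi : S.HomG chi) (hqe : QE S H chi) : BW S H dg chi := by
  intro i x y Q R z hxy hQR hz
  have hw := hH.weil
  have hx := hxy.sel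
  have hxP : IsPr S chi i (wPr S x Q) := isPr_wPr hx fun v s hs => (hQR v s hs).1
  have hxzP : IsPr S chi i (wPr S x Q + z) := pr_add h hxP hz
  -- the cochains
  obtain ⟨η, hη1, hη2⟩ := exists_eta h hH hchi hx hz.sel
  obtain ⟨ρx, hρx1, hρx2⟩ := exists_eta h hH hchi hx hx
  obtain ⟨ρz, hρz1, hρz2⟩ := exists_eta h hH hchi hz.sel hz.sel
  have hrx : IsRho S H chi i (wPr S x Q).1 ρx := ⟨hρx1, fun s t => (hρx2 s t).symm⟩
  have hrz : IsRho S H chi i z.1 ρz := ⟨hρz1, fun s t => (hρz2 s t).symm⟩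
  set ρ : G → M := fun s => ρx s + ρz s + ((2 : ℕ) • η s + H.e i (x s) (z.1 s)) with hρ
  have hrs : IsRho S H chi i (wPr S x Q + z).1 ρ := by
    refine ⟨Sys.TF.comp₂ h (Sys.TF.comp₂ h hρx1 hρz1 (fun a b => a + b))
      (Sys.TF.comp₂ h (hη1.comp fun a => (2 : ℕ) • a)
        (Sys.TF.comp₂ h hx.tf hz.sel.tf (fun a b => H.e i a b)) (fun a b => a + b))
      (fun a b => a + b), fun s t => ?_⟩
    have hxl := hx.lev
    have hzl := hz.sel.lev
    have hxs : ∀ s t, (2 : ℕ) ^ i • tw chi s (x t) = 0 := fun s t => tw_lev s (hxl t)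
    have hzs : ∀ s t, (2 : ℕ) ^ i • tw chi s (z.1 t) = 0 := fun s t => tw_lev s (hzl t)
    change H.e i (x s + z.1 s) (tw chi s (x t + z.1 t)) = _
    have e1 : H.e i (x s + z.1 s) (tw chi s (x t + z.1 t)) =
        H.e i (x s) (tw chi s (x t)) + H.e i (x s) (tw chi s (z.1 t)) +
          (H.e i (z.1 s) (tw chi s (x t)) + H.e i (z.1 s) (tw chi s (z.1 t))) := by
      rw [tw_add, hw.add_left _ _ _ _ (hxl s) (hzl s) (lev_add (hxs s t) (hzs s t)),
        hw.add_right _ _ _ _ (hxl s) (hxs s t) (hzs s t),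
        hw.add_right _ _ _ _ (hzl s) (hxs s t) (hzs s t)]
    have e2 : H.e i (x (s * t)) (z.1 (s * t)) = H.e i (x s) (z.1 s) +
        H.e i (x s) (tw chi s (z.1 t)) + (H.e i (tw chi s (x t)) (z.1 s) +
          s • H.e i (x t) (z.1 t)) := by
      rw [hx.coc, hz.sel.coc, hw.add_left _ _ _ _ (hxl s) (hxs s t) (lev_add (hzl s) (hzs s t)),
        hw.add_right _ _ _ _ (hxl s) (hzl s) (hzs s t),
        hw.add_right _ _ _ _ (hxs s t) (hzl s) (hzs s t), hw.tw_equiv chi i s (hxl t) (hzl t)]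
    have e3 : H.e i (z.1 s) (tw chi s (x t)) = -H.e i (tw chi s (x t)) (z.1 s) :=
      hw.anti (hzl s) (hxs s t)
    rw [e1, e3, hρ]
    beta_reduce
    rw [e2, ← hρx2 s t, ← hρz2 s t, ← hη2 s t]
    simp only [smul_add, two_nsmul]
    abel
  -- the local points
  have hZ : ∀ v, ∃ Z : V, (∀ s ∈ S.D v, z.1 s = dl chi Z s) ∧ (v ∉ S.good → z.2 v = Z) := fun v => by
    by_cases hv : v ∈ S.good
    · obtain ⟨Z, hZ⟩ := hz.sel.loc v
      exact ⟨Z, hZ, fun h1 => absurd hv h1⟩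
    · exact ⟨z.2 v, hz.loc v hv, fun _ => rfl⟩
  choose Z hZ1 hZ2 using hZ
  have hr : ∀ v, ∃ r : ℕ, (2 : ℕ) ^ (i + r) • Q v = 0 ∧ (2 : ℕ) ^ (i + r) • R v = 0 := fun v => by
    obtain ⟨r1, hr1⟩ := h.tors (Q v)
    obtain ⟨r2, hr2⟩ := h.tors (R v)
    exact ⟨r1 + r2, pow_le (by omega) hr1, pow_le (by omega) hr2⟩
  choose r hr1 hr2 using hr
  choose Q' hQ' using fun v => exists_pow_half h (Z v) (r v)
  have hlQ : ∀ v, (2 : ℕ) ^ i • dl chi (Q v) (S.sg v) = 0 := fun v => by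
    rw [← (hQR v _ (h.sg_mem v)).1, hx.lev]
  have hlZ : ∀ v, (2 : ℕ) ^ i • dl chi (Z v) (S.sg v) = 0 := fun v => by
    rw [← hZ1 v _ (h.sg_mem v), hz.sel.lev]
  have hbt : ∀ v, etaV H.e (i + r v) chi (Q v) (Q' v) (S.sg v) =
      bt H.e chi i (S.sg v) (Q v) (Z v) := fun v =>
    (bt_eq h hw (hH.sgM v) (hlQ v) (hlZ v) (hr1 v) (hQ' v)).symm
  obtain ⟨hfin, hsum⟩ := link_core (H := H) h hI hH hd hdT hR hchi (j := i) (x := x) (y := y)
    (z := z.1) (η := η) hxy.xtf hxy.ytf ⟨hxy.xlev, hxy.ylev, hxy.xcoc, hxy.ycoc⟩ hz.sel.tf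
    hz.sel.lev hz.sel.coc hη1 hη2 (fun v => i + r v) Q R Q' (fun v => Nat.le_add_right i _) hr1 hr2
    (fun v s hs => by rw [Nat.add_sub_cancel_left, ← dl_nsmul, hQ', hZ1 v s hs])
    (fun v s hs => (hQR v s hs).1) (fun v s hs => (hQR v s hs).2)
  -- the polar form
  have hpol : ∀ v, bt H.e chi i (S.sg v) (Q v + Z v) (Q v + Z v) =
      bt H.e chi i (S.sg v) (Q v) (Q v) + bt H.e chi i (S.sg v) (Z v) (Z v) +
        ((2 : ℕ) • bt H.e chi i (S.sg v) (Q v) (Z v) + H.e i (x (S.sg v)) (z.1 (S.sg v))) :=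
    fun v => by
    have hs := hH.sgM v
    have hQZ : (2 : ℕ) ^ i • dl chi (Q v + Z v) (S.sg v) = 0 := by
      rw [dl_add]; exact lev_add (hlQ v) (hlZ v)
    rw [bt_add_left h hw hs (hlQ v) (hlZ v) hQZ, bt_add_right h hw hs (hlQ v) (hlQ v) (hlZ v),
      bt_add_right h hw hs (hlZ v) (hlQ v) (hlZ v), bt_symm h hw hs (hlZ v) (hlQ v),
      (hQR v _ (h.sg_mem v)).1, hZ1 v _ (h.sg_mem v), two_nsmul]
    abel
  have hterm : ∀ v, ρ (S.sg v) - rhoQ H chi i ((wPr S x Q + z).2 v) (S.sg v) =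
      (ρx (S.sg v) - rhoQ H chi i ((wPr S x Q).2 v) (S.sg v)) +
      (ρz (S.sg v) - rhoQ H chi i (z.2 v) (S.sg v)) +
      (2 : ℕ) • (η (S.sg v) - etaV H.e (i + r v) chi (Q v) (Q' v) (S.sg v)) := fun v => by
    have hp := hpol v
    rw [hbt, rhoQ_bt, rhoQ_bt, rhoQ_bt, hρ]
    beta_reduce
    rw [smul_sub]
    by_cases hv : v ∈ S.good
    · have e1 : (wPr S x Q).2 v = 0 := if_pos hv
      have e2 : z.2 v = 0 := hz.off v hv
      have e0 : bt H.e chi i (S.sg v) (0 : V) (0 : V) = 0 :=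
        bt_goodL h hH hv (by rw [dl_zero, smul_zero])
      have e3 : (wPr S x Q + z).2 v = 0 := by
        rw [Prod.snd_add, Pi.add_apply, e1, e2, add_zero]
      rw [bt_goodL h hH hv (hlQ v), bt_goodL h hH hv (hlZ v),
        bt_goodL h hH hv (by rw [dl_add]; exact lev_add (hlQ v) (hlZ v)), add_zero, zero_add] at hp
      have e4 : H.e i (x (S.sg v)) (z.1 (S.sg v)) =
          -((2 : ℕ) • bt H.e chi i (S.sg v) (Q v) (Z v)) := by
        rw [eq_neg_iff_add_eq_zero, add_comm]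
        exact hp.symm
      rw [e1, e2, e3, e0, e4]
      abel
    · have e1 : (wPr S x Q).2 v = Q v := if_neg hv
      have e2 : z.2 v = Z v := hZ2 v hv
      have e3 : (wPr S x Q + z).2 v = Q v + Z v := by
        rw [Prod.snd_add, Pi.add_apply, e1, e2]
      rw [e1, e2, e3, hp]
      abel
  have hf1 := supp_le (deg := H.deg) (nm := H.nm) (rho_supp h hH hchi hxP hrx)
  have hf2 := supp_le (deg := H.deg) (nm := H.nm) (rho_supp h hH hchi hz hrz)
  have hf3 := supp_le (deg := H.deg) (nm := H.nm) hfin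
  have hq : q S H chi i (wPr S x Q + z) = q S H chi i (wPr S x Q) + q S H chi i z := by
    rw [hqe i _ ρ hxzP hrs, hqe i _ ρx hxP hrx, hqe i _ ρz hz hrz, ← add_zero (∑ᶠ v, _ + ∑ᶠ v, _)]
    have h0 : (0 : M) = ∑ᶠ v, (2 : ℕ) • (H.deg v • H.nm v (η (S.sg v) -
        etaV H.e (i + r v) chi (Q v) (Q' v) (S.sg v))) := by
      have h1 := (nsmulAddMonoidHom (α := M) 2).map_finsum hf3
      rw [hsum, map_zero] at h1
      exact h1
    rw [h0, ← finsum_add_distrib hf1 hf2, ← finsum_add_distrib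
      ((hf1.union hf2).subset (Function.support_add _ _)) (hf3.subset fun v hv h0 => hv (by
        change H.deg v • H.nm v (η (S.sg v) -
          etaV H.e (i + r v) chi (Q v) (Q' v) (S.sg v)) = 0 at h0
        beta_reduce
        rw [h0, smul_zero]))]
    refine finsum_congr fun v => ?_
    rw [hterm v, map_add, map_add, smul_add, smul_add, map_nsmul, smul_comm (H.deg v) (2 : ℕ)]
  rw [bb, hq]
  abel

end Pool.Agent.SmNH
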