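import Pool.Agent.Lib.SmNH.Q.Main
import Pool.Agent.Lib.SmNH.Link.BW

/-!
# SMITH, heights: the link

`link_card`: if the height form `q_s` does not vanish on the rigid Selmer elements of level `s` with top
not in `kappa`, and `#SelZ_N ≤ C (2 #V1)^N`, then the number of the Selmer cocycles of level `N` of the
module `V ⊗ Z[T]/T^2`, `s` acting by `(1 + deg(s) T) s`, is at most `C' (2 #V1 ^ 2)^N`.
-/

set_option autoImplicit false

namespace Pool.Agent.SmNH

open Pool.Agent.SmN Pool.Agent.SmH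

variable {G V V1 Pl M : Type*} [Group G] [AddCommGroup V] [DistribMulAction G V]
  [AddCommGroup V1] [Module (ZMod 2) V1] [AddCommGroup M] [DistribMulAction G M]
variable {S : Sys G V V1 Pl} {H : HData V M Pl} {dg : ℕ → G → ℕ} {chi : G → ZMod 2}

/-- The facts about the degree. -/
structure DegOk (S : Sys G V V1 Pl) (H : HData V M Pl) (dg : ℕ → G → ℕ) : Prop where
  fi : FinI S
  deg : IsDeg dg
  tf : DegTF S dg
  unr : DegU S dg
  recip : RecDeg S dg H.deg H.nm

theorem qe_of (h : S.Ok) (hH : HOk S H) (hchi : S.HomG chi) : QE S H chi := fun _ _ _ hy hr => by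
  rw [q_eq h hH hchi hy hr]; rfl

theorem qf_of (h : S.Ok) (hH : HOk S H) (hchi : S.HomG chi) : QF S H chi where
  add _ _ _ _ hy hy' hz := bb_add_left h hH hchi hy hy' hz
  self _ _ hy := bb_self h hH hchi hy
  two _ _ hy := q_two h hH hchi hy

/-- The height pairing of a W-cocycle and a rigid Selmer element is zero. -/
theorem bw (h : S.Ok) (hH : HOk S H) (hD : DegOk S H dg) (hchi : S.HomG chi) : BW S H dg chi :=
  bw_of h hD.fi hH hD.deg hD.tf hD.recip hchi (qe_of h hH hchi)

/-- The link: the Selmer group of `V ⊗ Z[T]/T^2` has corank at most one if the height does not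
vanish. -/
theorem link_card (h : S.Ok) (hH : HOk S H) (hD : DegOk S H dg) (hchi : S.HomG chi)
    (hfin : ∀ i, Finite {x // S.IsSel chi i x}) (s : ℕ) (hs : 1 ≤ s)
    (hq : ∀ y, IsPr S chi s y →
      ¬ (∃ z : V, (2 : ℕ) ^ 2 • z = 0 ∧ ∀ g, (2 : ℕ) ^ (s - 1) • y.1 g = dl chi z g) →
      q S H chi s y ≠ 0)
    (hC : ∃ C, ∀ N, Nat.card {x // S.IsSel chi N x} ≤ C * (2 * Nat.card V1) ^ N) :
    ∃ C, ∀ N, Finite {p : (G → V) × (G → V) // IsWSel S dg chi N p.1 p.2} ∧
      Nat.card {p : (G → V) × (G → V) // IsWSel S dg chi N p.1 p.2} ≤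
        C * (2 * Nat.card V1 ^ 2) ^ N :=
  link_card_abs h hD.deg hD.unr hchi hfin hH.tors (qf_of h hH hchi) (bw h hH hD hchi) s hs hq hC

end Pool.Agent.SmNH
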